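import Pool.Agent.H.MP_82e03f_pr.Cert

/-!
The lower bound for the critical density: a first moment bound for the probability of saturation.
-/

namespace Pool.Agent.H.MP_82e03f_pr

open ProbabilityTheory MeasureTheory unitInterval

variable {n d : ℕ}

theorem ber_superset_le {ι : Type*} [Countable ι] {u : Set ι} (p : I) (F : Finset ι) :
    (setBernoulli u p).real {s | ∀ i ∈ F, i ∈ s} ≤ (p : ℝ) ^ F.card := by
  by_cases hF : ∀ i ∈ F, i ∈ u
  · exact (ber_superset p F hF).le
  · push Not at hF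
    obtain ⟨i, hi, hiu⟩ := hF
    have : (setBernoulli u p) {s | ∀ i ∈ F, i ∈ s} = 0 := by
      rw [setBernoulli_apply_eq_apply_subsets]
      have hempty : {s | s ∈ {s : Set ι | ∀ i ∈ F, i ∈ s} ∧ s ⊆ u} = ∅ := by
        ext s
        simp only [Set.mem_ofPred_eq, Set.mem_empty_iff_false, iff_false, not_and]
        intro h1 h2
        exact hiu (h2 (h1 i hi))
      rw [hempty, measure_empty]
    rw [measureReal_def, this]
    simp only [ENNReal.toReal_zero]
    exact pow_nonneg p.2.1 _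

/-- as `Struct`, with the additional requirement that `y` is in the vertex set -/
def StructY (O : Set (Sym2 (Fin d → Fin n))) (x y : Fin d → Fin n) (m : ℕ) : Prop :=
  ∃ W ∈ steps {x} (m + 1), y ∈ W ∧ ∃ X : Finset (Sym2 (Fin d → Fin n)), X.card = m ∧
    (∀ e ∈ X, e ∈ O) ∧ (∀ e ∈ X, ∀ v ∈ e, v ∈ W)

theorem card_powerset_sym2_le {x : Fin d → Fin n} {W : Finset (Fin d → Fin n)} {m : ℕ}
    (hW : W ∈ steps {x} (m + 1)) : (W.sym2.powerset.card : ℝ) ≤ 2 ^ ((m + 3) ^ 2) := by
  rw [Finset.card_powerset, Finset.card_sym2]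
  push_cast
  apply pow_le_pow_right₀ (by norm_num)
  have h1 := card_of_mem_steps hW
  rw [Finset.card_singleton] at h1
  calc (W.card + 1).choose 2 ≤ (W.card + 1) ^ 2 := Nat.choose_le_pow _ _
    _ ≤ (m + 3) ^ 2 := Nat.pow_le_pow_left (by omega) 2

theorem prob_edges_le (p : I) {x : Fin d → Fin n} {W : Finset (Fin d → Fin n)} {m : ℕ}
    (hW : W ∈ steps {x} (m + 1)) :
    (setBernoulli ((hamming n d)ᶜ.edgeSet) p).real
      {O | ∃ X : Finset (Sym2 (Fin d → Fin n)), X.card = m ∧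
      (∀ e ∈ X, e ∈ O) ∧ (∀ e ∈ X, ∀ v ∈ e, v ∈ W)} ≤ 2 ^ ((m + 3) ^ 2) * (p : ℝ) ^ m := by
  classical
  have hsub : {O : Set (Sym2 (Fin d → Fin n)) | ∃ X : Finset (Sym2 (Fin d → Fin n)), X.card = m ∧
      (∀ e ∈ X, e ∈ O) ∧ (∀ e ∈ X, ∀ v ∈ e, v ∈ W)} ⊆
      ⋃ X ∈ W.sym2.powerset.filter (fun X => X.card = m), {O | ∀ e ∈ X, e ∈ O} := by
    rintro O ⟨X, h1, h2, h3⟩
    simp only [Set.mem_iUnion]
    refine ⟨X, ?_, h2⟩
    rw [Finset.mem_filter, Finset.mem_powerset]
    exact ⟨fun e he => Finset.mem_sym2_iff.2 (h3 e he), h1⟩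
  refine (measureReal_mono hsub (measure_ne_top _ _)).trans ?_
  refine (measureReal_biUnion_finset_le _ _).trans ?_
  calc ∑ X ∈ W.sym2.powerset.filter (fun X => X.card = m),
        (setBernoulli ((hamming n d)ᶜ.edgeSet) p).real {O | ∀ e ∈ X, e ∈ O}
      ≤ ∑ X ∈ W.sym2.powerset.filter (fun X => X.card = m), (p : ℝ) ^ m := by
        apply Finset.sum_le_sum
        intro X hX
        rw [Finset.mem_filter] at hX
        rw [← hX.2]
        exact ber_superset_le p X
    _ = ((W.sym2.powerset.filter (fun X => X.card = m)).card : ℝ) * (p : ℝ) ^ m := by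
        rw [Finset.sum_const, nsmul_eq_mul]
    _ ≤ 2 ^ ((m + 3) ^ 2) * (p : ℝ) ^ m := by
        apply mul_le_mul_of_nonneg_right _ (pow_nonneg p.2.1 _)
        refine le_trans ?_ (card_powerset_sym2_le hW)
        exact_mod_cast Finset.card_filter_le _ _

theorem prob_struct_le (p : I) (x : Fin d → Fin n) (m : ℕ) :
    (setBernoulli ((hamming n d)ᶜ.edgeSet) p).real {O | Struct O x m} ≤
      (((m + 1 : ℕ) : ℝ) * (d * n)) ^ (m + 1) * (2 ^ ((m + 3) ^ 2) * (p : ℝ) ^ m) := by
  classical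
  have hsub : {O : Set (Sym2 (Fin d → Fin n)) | Struct O x m} ⊆
      ⋃ W ∈ steps {x} (m + 1), {O | ∃ X : Finset (Sym2 (Fin d → Fin n)), X.card = m ∧
      (∀ e ∈ X, e ∈ O) ∧ (∀ e ∈ X, ∀ v ∈ e, v ∈ W)} := by
    rintro O ⟨W, hW, h⟩
    simp only [Set.mem_iUnion]
    exact ⟨W, hW, h⟩
  refine (measureReal_mono hsub (measure_ne_top _ _)).trans ?_
  refine (measureReal_biUnion_finset_le _ _).trans ?_
  refine (Finset.sum_le_sum fun W hW => prob_edges_le p hW).trans ?_
  rw [Finset.sum_const, nsmul_eq_mul]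
  apply mul_le_mul_of_nonneg_right _ (mul_nonneg (by positivity) (pow_nonneg p.2.1 _))
  exact_mod_cast card_steps_le x (m + 1)

theorem prob_structY_le (p : I) (x y : Fin d → Fin n) (m : ℕ) :
    (setBernoulli ((hamming n d)ᶜ.edgeSet) p).real {O | StructY O x y m} ≤
      ((steps {x} (m + 1)).filter (fun W => y ∈ W)).card *
        (2 ^ ((m + 3) ^ 2) * (p : ℝ) ^ m) := by
  classical
  have hsub : {O : Set (Sym2 (Fin d → Fin n)) | StructY O x y m} ⊆
      ⋃ W ∈ (steps {x} (m + 1)).filter (fun W => y ∈ W),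
      {O | ∃ X : Finset (Sym2 (Fin d → Fin n)), X.card = m ∧
      (∀ e ∈ X, e ∈ O) ∧ (∀ e ∈ X, ∀ v ∈ e, v ∈ W)} := by
    rintro O ⟨W, hW, hy, h⟩
    simp only [Set.mem_iUnion]
    exact ⟨W, Finset.mem_filter.2 ⟨hW, hy⟩, h⟩
  refine (measureReal_mono hsub (measure_ne_top _ _)).trans ?_
  refine (measureReal_biUnion_finset_le _ _).trans ?_
  refine (Finset.sum_le_sum fun W hW => prob_edges_le p (Finset.mem_filter.1 hW).1).trans ?_
  rw [Finset.sum_const, nsmul_eq_mul]

theorem sum_prob_structY_le (p : I) (x : Fin d → Fin n) (m : ℕ) (D : Finset (Fin d → Fin n)) :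
    ∑ y ∈ D, (setBernoulli ((hamming n d)ᶜ.edgeSet) p).real {O | StructY O x y m} ≤
      (((m + 1 : ℕ) : ℝ) * (d * n)) ^ (m + 1) * (m + 2) * (2 ^ ((m + 3) ^ 2) * (p : ℝ) ^ m) := by
  classical
  have hnn : 0 ≤ (2 ^ ((m + 3) ^ 2) * (p : ℝ) ^ m) := mul_nonneg (by positivity) (pow_nonneg p.2.1 _)
  calc ∑ y ∈ D, (setBernoulli ((hamming n d)ᶜ.edgeSet) p).real {O | StructY O x y m}
      ≤ ∑ y ∈ D, (((steps {x} (m + 1)).filter (fun W => y ∈ W)).card : ℝ) *
        (2 ^ ((m + 3) ^ 2) * (p : ℝ) ^ m) := Finset.sum_le_sum fun y _ => prob_structY_le p x y m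
    _ = (∑ y ∈ D, (((steps {x} (m + 1)).filter (fun W => y ∈ W)).card : ℝ)) *
        (2 ^ ((m + 3) ^ 2) * (p : ℝ) ^ m) := by rw [Finset.sum_mul]
    _ ≤ (((m + 1 : ℕ) : ℝ) * (d * n)) ^ (m + 1) * (m + 2) * (2 ^ ((m + 3) ^ 2) * (p : ℝ) ^ m) := by
        apply mul_le_mul_of_nonneg_right _ hnn
        have h1 : ∑ y ∈ D, ((steps {x} (m + 1)).filter (fun W => y ∈ W)).card ≤
            (steps {x} (m + 1)).card * (m + 2) := by
          have h2 : ∀ y, ((steps {x} (m + 1)).filter (fun W => y ∈ W)).card =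
              ∑ W ∈ steps {x} (m + 1), if y ∈ W then 1 else 0 := by
            intro y
            rw [Finset.card_filter]
          simp_rw [h2]
          rw [Finset.sum_comm]
          apply Finset.sum_le_card_nsmul
          intro W hW
          rw [← Finset.card_filter]
          have h3 : (D.filter (fun y => y ∈ W)).card ≤ W.card := by
            apply Finset.card_le_card
            intro y hy
            exact (Finset.mem_filter.1 hy).2
          have h4 := card_of_mem_steps hW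
          rw [Finset.card_singleton] at h4
          omega
        have h5 : (∑ y ∈ D, (((steps {x} (m + 1)).filter (fun W => y ∈ W)).card : ℝ)) ≤
            ((steps {x} (m + 1)).card : ℝ) * (m + 2) := by exact_mod_cast h1
        refine h5.trans ?_
        apply mul_le_mul_of_nonneg_right _ (by positivity)
        exact_mod_cast card_steps_le x (m + 1)

/-- selection of the `K` smallest values -/
theorem exists_small_subset {α : Type*} (D : Finset α) (a : α → ℝ) (K : ℕ) (hK : K ≤ D.card) :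
    ∃ S ⊆ D, S.card = K ∧ (D.card : ℝ) * ∑ y ∈ S, a y ≤ K * ∑ y ∈ D, a y := by
  classical
  induction hr : D.card - K generalizing D with
  | zero =>
    have : D.card = K := by omega
    exact ⟨D, subset_rfl, this, by rw [this]⟩
  | succ r ih =>
    have hne : D.Nonempty := by
      rw [← Finset.card_pos]; omega
    obtain ⟨z, hz, hmax⟩ := Finset.exists_max_image D a hne
    have hcard : (D.erase z).card = D.card - 1 := Finset.card_erase_of_mem hz
    obtain ⟨S, hS, hSc, hSs⟩ := ih (D.erase z) (by omega) (by omega)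
    refine ⟨S, hS.trans (Finset.erase_subset _ _), hSc, ?_⟩
    have hpos : 1 ≤ D.card := by omega
    have hsum : ∑ y ∈ D.erase z, a y + a z = ∑ y ∈ D, a y := Finset.sum_erase_add D a hz
    have hle : ∑ y ∈ D, a y ≤ D.card * a z := by
      have := Finset.sum_le_card_nsmul D a (a z) hmax
      simpa [nsmul_eq_mul] using this
    rw [hcard] at hSs
    push_cast [Nat.cast_sub hpos] at hSs
    rcases Nat.eq_zero_or_pos K with h0 | hKpos
    · subst h0
      rw [Finset.card_eq_zero] at hSc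
      subst hSc
      simp
    · have hD1 : (0 : ℝ) < (D.card : ℝ) - 1 := by
        have : 2 ≤ D.card := by omega
        have : (2 : ℝ) ≤ D.card := by exact_mod_cast this
        linarith
      have hD0 : (0 : ℝ) < (D.card : ℝ) := by linarith
      have hKr : (0 : ℝ) < (K : ℝ) := by exact_mod_cast hKpos
      -- (D-1) * D * S ≤ D * K * sum erase ≤ (D-1) * K * sum
      have e1 : ((D.card : ℝ) - 1) * ((D.card : ℝ) * ∑ y ∈ S, a y) ≤
          ((D.card : ℝ) - 1) * (K * ∑ y ∈ D, a y) := by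
        calc ((D.card : ℝ) - 1) * ((D.card : ℝ) * ∑ y ∈ S, a y)
            = (D.card : ℝ) * (((D.card : ℝ) - 1) * ∑ y ∈ S, a y) := by ring
          _ ≤ (D.card : ℝ) * (K * ∑ y ∈ D.erase z, a y) := mul_le_mul_of_nonneg_left hSs hD0.le
          _ = K * ((D.card : ℝ) * ∑ y ∈ D, a y - (D.card : ℝ) * a z) := by rw [← hsum]; ring
          _ ≤ K * ((D.card : ℝ) * ∑ y ∈ D, a y - ∑ y ∈ D, a y) := by
              apply mul_le_mul_of_nonneg_left _ hKr.le
              linarith
          _ = ((D.card : ℝ) - 1) * (K * ∑ y ∈ D, a y) := by ring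
      exact le_of_mul_le_mul_left e1 hD1

/-- The main first moment estimate. -/
theorem probSat_le (hd : 0 < d) (p : I) (M : ℕ) (hM : 1 ≤ M) (x₀ : Fin d → Fin n) (K N : ℕ)
    (D : Finset (Fin d → Fin n)) (hD : ∀ y ∈ D, 3 ≤ hammingDist x₀ y) (hN : N ≤ D.card)
    (hN0 : 0 < N) (hK : K ≤ N) :
    probSat n d p ≤
      (n : ℝ) ^ d * ∑ m ∈ Finset.Icc M (2 * M - 1),
        (((m + 1 : ℕ) : ℝ) * (d * n)) ^ (m + 1) * (2 ^ ((m + 3) ^ 2) * (p : ℝ) ^ m)
      + (1 - (p : ℝ)) ^ K
      + (K : ℝ) / N * ∑ m ∈ Finset.Icc 2 (M - 1),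
        (((m + 1 : ℕ) : ℝ) * (d * n)) ^ (m + 1) * (m + 2) * (2 ^ ((m + 3) ^ 2) * (p : ℝ) ^ m) := by
  classical
  set μ := setBernoulli ((hamming n d)ᶜ.edgeSet) p with hμ
  let a : (Fin d → Fin n) → ℝ := fun y =>
    ∑ m ∈ Finset.Icc 2 (M - 1), μ.real {O | StructY O x₀ y m}
  have ha0 : ∀ y, 0 ≤ a y := fun y => Finset.sum_nonneg fun m _ => measureReal_nonneg
  obtain ⟨S, hSD, hSc, hSs⟩ := exists_small_subset D a K (hK.trans hN)
  set B := ∑ m ∈ Finset.Icc 2 (M - 1),
        (((m + 1 : ℕ) : ℝ) * (d * n)) ^ (m + 1) * (m + 2) * (2 ^ ((m + 3) ^ 2) * (p : ℝ) ^ m) with hB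
  have hp0 : (0 : ℝ) ≤ p := p.2.1
  have hB0 : 0 ≤ B := by rw [hB]; positivity
  have hDsum : ∑ y ∈ D, a y ≤ B := by
    simp only [a]
    rw [Finset.sum_comm]
    apply Finset.sum_le_sum
    intro m _
    exact sum_prob_structY_le p x₀ m D
  have hSsum : ∑ y ∈ S, a y ≤ (K : ℝ) / N * B := by
    have hN' : (0 : ℝ) < N := by exact_mod_cast hN0
    rw [div_mul_eq_mul_div, le_div_iff₀ hN']
    have hNle : (N : ℝ) ≤ D.card := by exact_mod_cast hN
    calc (∑ y ∈ S, a y) * N ≤ (∑ y ∈ S, a y) * D.card :=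
          mul_le_mul_of_nonneg_left hNle (Finset.sum_nonneg fun y _ => ha0 y)
      _ = D.card * ∑ y ∈ S, a y := mul_comm _ _
      _ ≤ K * ∑ y ∈ D, a y := hSs
      _ ≤ K * B := mul_le_mul_of_nonneg_left hDsum (Nat.cast_nonneg K)
  have hcover : {O | Saturated n d O} ⊆
      ((⋃ x ∈ (Finset.univ : Finset (Fin d → Fin n)), ⋃ m ∈ Finset.Icc M (2 * M - 1),
          {O | Struct O x m}) ∪
        {O : Set (Sym2 (Fin d → Fin n)) | ∀ e ∈ S.image (fun y => s(x₀, y)), e ∉ O}) ∪
        (⋃ y ∈ S, ⋃ m ∈ Finset.Icc 2 (M - 1), {O | StructY O x₀ y m}) := by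
    intro O hO
    by_contra hcon
    rw [Set.mem_union, Set.mem_union, not_or, not_or] at hcon
    obtain ⟨⟨h1, h2⟩, h3⟩ := hcon
    have hbad : ∀ x m, M ≤ m → m ≤ 2 * M - 1 → ¬ Struct O x m := by
      intro x m hm1 hm2 hs
      apply h1
      simp only [Set.mem_iUnion]
      exact ⟨x, Finset.mem_univ _, m, Finset.mem_Icc.2 ⟨hm1, hm2⟩, hs⟩
    simp only [Set.mem_ofPred_eq] at h2
    push Not at h2
    obtain ⟨e, he, heO⟩ := h2
    rw [Finset.mem_image] at he
    obtain ⟨y, hy, rfl⟩ := he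
    have hinf : s(x₀, y) ∈ occInf n d O := (saturated_iff O).1 hO heO
    obtain ⟨m, hm1, hm2, hm3⟩ := small_struct hd hM hbad (hD y (hSD hy)) hinf
    apply h3
    simp only [Set.mem_iUnion]
    exact ⟨y, hy, m, Finset.mem_Icc.2 ⟨hm1, hm2⟩, hm3⟩
  have hmid : μ.real {O : Set (Sym2 (Fin d → Fin n)) | ∀ e ∈ S.image (fun y => s(x₀, y)), e ∉ O}
      = (1 - (p : ℝ)) ^ K := by
    have hcard : (S.image (fun y => s(x₀, y))).card = K := by
      rw [Finset.card_image_of_injective, hSc]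
      intro y y' h
      simpa only [Sym2.congr_right] using h
    rw [← hcard]
    apply ber_disjoint
    intro e he
    rw [Finset.mem_image] at he
    obtain ⟨y, hy, rfl⟩ := he
    have h3 := hD y (hSD hy)
    rw [SimpleGraph.mem_edgeSet, SimpleGraph.compl_adj, hamming_adj]
    refine ⟨?_, by omega⟩
    rintro rfl
    rw [hammingDist_self] at h3
    omega
  have hfirst : μ.real (⋃ x ∈ (Finset.univ : Finset (Fin d → Fin n)),
      ⋃ m ∈ Finset.Icc M (2 * M - 1), {O | Struct O x m}) ≤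
      (n : ℝ) ^ d * ∑ m ∈ Finset.Icc M (2 * M - 1),
        (((m + 1 : ℕ) : ℝ) * (d * n)) ^ (m + 1) * (2 ^ ((m + 3) ^ 2) * (p : ℝ) ^ m) := by
    refine (measureReal_biUnion_finset_le _ _).trans ?_
    calc ∑ x ∈ (Finset.univ : Finset (Fin d → Fin n)),
          μ.real (⋃ m ∈ Finset.Icc M (2 * M - 1), {O | Struct O x m})
        ≤ ∑ x ∈ (Finset.univ : Finset (Fin d → Fin n)), ∑ m ∈ Finset.Icc M (2 * M - 1),
          (((m + 1 : ℕ) : ℝ) * (d * n)) ^ (m + 1) * (2 ^ ((m + 3) ^ 2) * (p : ℝ) ^ m) := by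
          apply Finset.sum_le_sum
          intro x _
          refine (measureReal_biUnion_finset_le _ _).trans ?_
          apply Finset.sum_le_sum
          intro m _
          exact prob_struct_le p x m
      _ = _ := by
          rw [Finset.sum_const, nsmul_eq_mul, Finset.card_univ, Fintype.card_fun, Fintype.card_fin,
            Fintype.card_fin]
          push_cast
          ring
  have hlast : μ.real (⋃ y ∈ S, ⋃ m ∈ Finset.Icc 2 (M - 1), {O | StructY O x₀ y m}) ≤
      ∑ y ∈ S, a y := by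
    refine (measureReal_biUnion_finset_le _ _).trans ?_
    apply Finset.sum_le_sum
    intro y _
    exact measureReal_biUnion_finset_le _ _
  calc probSat n d p = μ.real {O | Saturated n d O} := rfl
    _ ≤ _ := measureReal_mono hcover (measure_ne_top _ _)
    _ ≤ _ := measureReal_union_le _ _
    _ ≤ _ := by
      refine add_le_add ((measureReal_union_le _ _).trans (add_le_add hfirst hmid.le))
        (hlast.trans hSsum)

/-- There are at least `n^3` vertices of `[n+1]^d` at distance at least three from `0`. -/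
theorem card_far (n d : ℕ) (hd : 3 ≤ d) :
    n ^ 3 ≤ (Finset.univ.filter fun y : Fin d → Fin (n + 1) =>
      3 ≤ hammingDist (fun _ => 0) y).card := by
  classical
  let f : Fin n × Fin n × Fin n → (Fin d → Fin (n + 1)) := fun q i =>
    if i.val = 0 then q.1.succ else if i.val = 1 then q.2.1.succ else
      if i.val = 2 then q.2.2.succ else 0
  have hf : Function.Injective f := by
    rintro ⟨a, b, c⟩ ⟨a', b', c'⟩ h
    have h0 := congrFun h ⟨0, by omega⟩
    have h1 := congrFun h ⟨1, by omega⟩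
    have h2 := congrFun h ⟨2, by omega⟩
    simp only [f] at h0 h1 h2
    norm_num at h0 h1 h2
    rw [h0, h1, h2]
  have hcard : Fintype.card (Fin n × Fin n × Fin n) = n ^ 3 := by
    simp only [Fintype.card_prod, Fintype.card_fin]; ring
  rw [← hcard, ← Finset.card_univ, ← Finset.card_image_of_injective Finset.univ hf]
  apply Finset.card_le_card
  intro y hy
  rw [Finset.mem_image] at hy
  obtain ⟨⟨a, b, c⟩, _, rfl⟩ := hy
  rw [Finset.mem_filter]
  refine ⟨Finset.mem_univ _, ?_⟩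
  unfold hammingDist
  have hsub : ({⟨0, by omega⟩, ⟨1, by omega⟩, ⟨2, by omega⟩} : Finset (Fin d)) ⊆
      Finset.univ.filter fun i => (fun _ => (0 : Fin (n + 1))) i ≠ f (a, b, c) i := by
    intro i hi
    simp only [Finset.mem_insert, Finset.mem_singleton] at hi
    rw [Finset.mem_filter]
    refine ⟨Finset.mem_univ _, ?_⟩
    rcases hi with rfl | rfl | rfl
    · simp only [f]
      norm_num
      exact (Fin.succ_ne_zero _).symm
    · simp only [f]
      norm_num
      exact (Fin.succ_ne_zero _).symm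
    · simp only [f]
      norm_num
      exact (Fin.succ_ne_zero _).symm
  have hc3 : ({⟨0, by omega⟩, ⟨1, by omega⟩, ⟨2, by omega⟩} : Finset (Fin d)).card = 3 := by
    rw [Finset.card_eq_three]
    exact ⟨⟨0, by omega⟩, ⟨1, by omega⟩, ⟨2, by omega⟩, by simp, by simp, by simp, rfl⟩
  rw [← hc3]
  exact Finset.card_le_card hsub

end Pool.Agent.H.MP_82e03f_pr
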