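import Pool.Agent.H.MP_82e03f_pr.Upper
import Pool.Agent.H.MP_82e03f_pr.Lower

/-!
Asymptotics.
-/

namespace Pool.Agent.H.MP_82e03f_pr

open ProbabilityTheory MeasureTheory unitInterval Filter Topology

theorem probSat_ge (n d : ℕ) (p : I) :
    1 - (n : ℝ) ^ (2 * d) * (d : ℝ) ^ 2 *
      (2 * ((1 + Real.exp (-(p : ℝ) * n / 2)) ^ (2 * n) - 1)) ≤ probSat n d p := by
  have h1 := prob_not_saturated (n := n) (d := d) p
  have h2 : (1 : ℝ) ≤ (setBernoulli ((hamming n d)ᶜ.edgeSet) p).real {O | Saturated n d O} +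
      (setBernoulli ((hamming n d)ᶜ.edgeSet) p).real {O | ¬ Saturated n d O} := by
    have h3 := measureReal_union_le (μ := setBernoulli ((hamming n d)ᶜ.edgeSet) p)
      {O | Saturated n d O} {O | ¬ Saturated n d O}
    have h4 : {O : Set (Sym2 (Fin d → Fin n)) | Saturated n d O} ∪ {O | ¬ Saturated n d O}
        = Set.univ := by
      ext O
      simp [em]
    rw [h4] at h3
    simpa using h3
  unfold probSat
  linarith

theorem tendsto_aux (d : ℕ) (ε : ℝ) (hε : 0 < ε) :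
    Tendsto (fun n : ℕ => 8 * (d : ℝ) ^ 2 * ((n : ℝ) ^ (2 * d + 1) *
      Real.exp (-(n : ℝ) ^ ε / 2))) atTop (𝓝 0) := by
  have h1 : Tendsto (fun x : ℝ => x ^ ((2 * d + 1 : ℕ) / ε) * Real.exp (-(1/2) * x)) atTop (𝓝 0) :=
    tendsto_rpow_mul_exp_neg_mul_atTop_nhds_zero _ _ (by norm_num)
  have h2 : Tendsto (fun n : ℕ => (n : ℝ) ^ ε) atTop atTop :=
    (tendsto_rpow_atTop hε).comp tendsto_natCast_atTop_atTop
  have h3 := h1.comp h2
  have h4 : Tendsto (fun n : ℕ => (n : ℝ) ^ (2 * d + 1) *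
      Real.exp (-(n : ℝ) ^ ε / 2)) atTop (𝓝 0) := by
    refine h3.congr (fun n => ?_)
    simp only [Function.comp]
    rw [← Real.rpow_mul (Nat.cast_nonneg n), mul_div_cancel₀ _ hε.ne', Real.rpow_natCast]
    congr 2
    ring
  simpa using h4.const_mul (8 * (d : ℝ) ^ 2)

theorem upper_asymp (d : ℕ) (ε : ℝ) (hε : 0 < ε) :
    ∀ᶠ n : ℕ in atTop, ∀ q : I, (n : ℝ) ^ (-1 + ε) ≤ q → 1 / 2 ≤ probSat n d q := by
  have h1 := (tendsto_aux d ε hε).eventually (gt_mem_nhds (by norm_num : (0 : ℝ) < 1 / 2))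
  have h3 : Tendsto (fun n : ℕ => 2 * ((n : ℝ) ^ (2 * 0 + 1) *
      Real.exp (-(n : ℝ) ^ ε / 2))) atTop (𝓝 0) := by
    have h1 : Tendsto (fun x : ℝ => x ^ ((1 : ℕ) / ε) * Real.exp (-(1/2) * x)) atTop (𝓝 0) :=
      tendsto_rpow_mul_exp_neg_mul_atTop_nhds_zero _ _ (by norm_num)
    have h2 : Tendsto (fun n : ℕ => (n : ℝ) ^ ε) atTop atTop :=
      (tendsto_rpow_atTop hε).comp tendsto_natCast_atTop_atTop
    have h3 := h1.comp h2
    have h4 : Tendsto (fun n : ℕ => (n : ℝ) ^ (2 * 0 + 1) *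
        Real.exp (-(n : ℝ) ^ ε / 2)) atTop (𝓝 0) := by
      refine h3.congr (fun n => ?_)
      simp only [Function.comp]
      rw [← Real.rpow_mul (Nat.cast_nonneg n), mul_div_cancel₀ _ hε.ne']
      simp only [Nat.cast_one, Real.rpow_one, mul_zero, zero_add, pow_one]
      congr 2
      ring
    simpa using h4.const_mul 2
  have h4 := h3.eventually (gt_mem_nhds (by norm_num : (0 : ℝ) < 1))
  filter_upwards [h1, h4, eventually_gt_atTop 0] with n hn1 hn2 hn0 q hq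
  have hn0' : (0 : ℝ) < n := by exact_mod_cast hn0
  refine le_trans ?_ (probSat_ge n d q)
  set ρ := Real.exp (-(n : ℝ) ^ ε / 2) with hρ
  have hρ0 : 0 < ρ := Real.exp_pos _
  have hρle : Real.exp (-(q : ℝ) * n / 2) ≤ ρ := by
    apply Real.exp_le_exp.2
    have h5 : (n : ℝ) ^ ε = (n : ℝ) ^ (-1 + ε) * n := by
      rw [← Real.rpow_add_one hn0'.ne']
      congr 1
      ring
    have h6 := mul_le_mul_of_nonneg_right hq hn0'.le
    rw [← h5] at h6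
    linarith
  have h7 : (1 + Real.exp (-(q : ℝ) * n / 2)) ^ (2 * n) - 1 ≤ 4 * n * ρ := by
    have h8 : (1 + Real.exp (-(q : ℝ) * n / 2)) ^ (2 * n) ≤ Real.exp (2 * n * ρ) := by
      calc (1 + Real.exp (-(q : ℝ) * n / 2)) ^ (2 * n) ≤ (Real.exp ρ) ^ (2 * n) := by
            apply pow_le_pow_left₀ (by positivity)
            have := Real.add_one_le_exp ρ
            linarith
        _ = Real.exp (2 * n * ρ) := by
            rw [← Real.exp_nat_mul]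
            push_cast
            ring_nf
    have h9 : 2 * n * ρ ≤ 1 := by
      simp only [mul_zero, zero_add, pow_one] at hn2
      linarith
    have h10 : Real.exp (2 * n * ρ) ≤ 1 + 2 * (2 * n * ρ) := by
      have hx0 : 0 ≤ 2 * n * ρ := by positivity
      have h11 := Real.norm_exp_sub_one_sub_id_le (x := 2 * n * ρ) (by rw [Real.norm_eq_abs, abs_of_nonneg hx0]; exact h9)
      rw [Real.norm_eq_abs, Real.norm_eq_abs, abs_of_nonneg hx0] at h11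
      have h12 := (abs_le.1 h11).2
      nlinarith
    linarith
  have h13 : (n : ℝ) ^ (2 * d) * (d : ℝ) ^ 2 *
      (2 * ((1 + Real.exp (-(q : ℝ) * n / 2)) ^ (2 * n) - 1)) ≤
      8 * (d : ℝ) ^ 2 * ((n : ℝ) ^ (2 * d + 1) * ρ) := by
    calc (n : ℝ) ^ (2 * d) * (d : ℝ) ^ 2 *
      (2 * ((1 + Real.exp (-(q : ℝ) * n / 2)) ^ (2 * n) - 1)) ≤
        (n : ℝ) ^ (2 * d) * (d : ℝ) ^ 2 * (2 * (4 * n * ρ)) := by
          apply mul_le_mul_of_nonneg_left _ (by positivity)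
          linarith
      _ = 8 * (d : ℝ) ^ 2 * ((n : ℝ) ^ (2 * d + 1) * ρ) := by ring
  linarith

/-- `n^{d+m+1} p^m → 0` for `p = n^{-1-ε}` and `m > (d+1)/ε`. -/
theorem term1_tendsto (a m : ℕ) (ε : ℝ) (c : ℝ) (hm : (a : ℝ) < ε * m) :
    Tendsto (fun n : ℕ => c * ((n : ℝ) ^ (a + m) * ((n : ℝ) ^ (-1 - ε)) ^ m)) atTop (𝓝 0) := by
  have h1 : Tendsto (fun n : ℕ => (n : ℝ) ^ (-(ε * m - a))) atTop (𝓝 0) :=
    (tendsto_rpow_neg_atTop (by linarith)).comp tendsto_natCast_atTop_atTop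
  have h2 : Tendsto (fun n : ℕ => (n : ℝ) ^ (a + m) * ((n : ℝ) ^ (-1 - ε)) ^ m) atTop (𝓝 0) := by
    apply h1.congr'
    filter_upwards [eventually_gt_atTop 0] with n hn
    have hn' : (0 : ℝ) < n := by exact_mod_cast hn
    rw [← Real.rpow_natCast ((n : ℝ) ^ (-1 - ε)) m, ← Real.rpow_mul hn'.le,
      ← Real.rpow_natCast (n : ℝ) (a + m), ← Real.rpow_add hn']
    congr 1
    push_cast
    ring
  simpa using h2.const_mul c

theorem lower_asymp (d : ℕ) (hd : 3 ≤ d) (ε : ℝ) (hε : 0 < ε) (hε1 : ε < 1) :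
    ∀ᶠ n : ℕ in atTop, ∀ q : I, (q : ℝ) = (n : ℝ) ^ (-1 - ε) → probSat n d q < 1 / 2 := by
  -- choose M
  obtain ⟨M, hM⟩ := exists_nat_gt (((d : ℝ) + 1) / ε + 3)
  have hM3 : (3 : ℝ) < M := by
    have : 0 < ((d : ℝ) + 1) / ε := by positivity
    linarith
  have hM1 : 1 ≤ M := by
    have : (1 : ℝ) < M := by linarith
    exact_mod_cast this.le
  have hMε : (d : ℝ) + 1 < ε * M := by
    have h1 : ((d : ℝ) + 1) / ε < M := by linarith
    rw [div_lt_iff₀ hε] at h1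
    linarith
  -- the three terms
  have T1 : Tendsto (fun n : ℕ => ∑ m ∈ Finset.Icc M (2 * M - 1),
      ((((m + 1 : ℕ) : ℝ) * d) ^ (m + 1) * 2 ^ ((m + 3) ^ 2)) *
        ((n : ℝ) ^ ((d + 1) + m) * ((n : ℝ) ^ (-1 - ε)) ^ m)) atTop (𝓝 0) := by
    have hz : (0 : ℝ) = ∑ m ∈ Finset.Icc M (2 * M - 1), (0 : ℝ) := by simp
    rw [hz]
    apply tendsto_finsetSum
    intro m hm
    apply term1_tendsto
    have : (M : ℝ) ≤ m := by exact_mod_cast (Finset.mem_Icc.1 hm).1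
    push_cast
    nlinarith
  have T2 : Tendsto (fun n : ℕ => Real.exp (-(n : ℝ) ^ (1 - ε))) atTop (𝓝 0) := by
    have h1 : Tendsto (fun n : ℕ => (n : ℝ) ^ (1 - ε)) atTop atTop :=
      (tendsto_rpow_atTop (by linarith)).comp tendsto_natCast_atTop_atTop
    exact Real.tendsto_exp_neg_atTop_nhds_zero.comp h1
  have T3 : Tendsto (fun n : ℕ => ∑ m ∈ Finset.Icc 2 (M - 1),
      (8 * ((((m + 1 : ℕ) : ℝ) * d) ^ (m + 1) * (m + 2) * 2 ^ ((m + 3) ^ 2))) *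
        ((n : ℝ) ^ (0 + m) * ((n : ℝ) ^ (-1 - ε)) ^ m)) atTop (𝓝 0) := by
    have hz : (0 : ℝ) = ∑ m ∈ Finset.Icc 2 (M - 1), (0 : ℝ) := by simp
    rw [hz]
    apply tendsto_finsetSum
    intro m hm
    apply term1_tendsto
    have : (2 : ℝ) ≤ m := by exact_mod_cast (Finset.mem_Icc.1 hm).1
    push_cast
    nlinarith
  have E1 := T1.eventually (gt_mem_nhds (by norm_num : (0 : ℝ) < 1 / 6))
  have E2 := T2.eventually (gt_mem_nhds (by norm_num : (0 : ℝ) < 1 / 6))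
  have E3 := T3.eventually (gt_mem_nhds (by norm_num : (0 : ℝ) < 1 / 6))
  filter_upwards [E1, E2, E3, eventually_ge_atTop 5] with n hn1 hn2 hn3 hn5 q hq
  obtain ⟨k, rfl⟩ : ∃ k, n = k + 1 := ⟨n - 1, by omega⟩
  have hk4 : 4 ≤ k := by omega
  have hn0 : (0 : ℝ) < ((k + 1 : ℕ) : ℝ) := by positivity
  have hk0 : (0 : ℝ) < (k : ℝ) := by
    have : 0 < k := by omega
    exact_mod_cast this
  have hKN : (k + 1) ^ 2 ≤ k ^ 3 := by
    nlinarith [Nat.mul_le_mul hk4 (Nat.le_refl (k * k)), Nat.mul_le_mul hk4 (Nat.le_refl k)]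
  have hmain := probSat_le (n := k + 1) (d := d) (by omega) q M hM1 (fun _ => 0) ((k + 1) ^ 2)
    (k ^ 3) (Finset.univ.filter fun y : Fin d → Fin (k + 1) =>
      3 ≤ hammingDist (fun _ => 0) y) (fun y hy => (Finset.mem_filter.1 hy).2)
    (card_far k d hd) (by positivity) hKN
  rw [hq] at hmain
  set P := ((k + 1 : ℕ) : ℝ) ^ (-1 - ε) with hP
  have hP0 : 0 < P := Real.rpow_pos_of_pos hn0 _
  have hP1 : P ≤ 1 := by rw [← hq]; exact q.2.2
  -- first term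
  have B1 : ((k + 1 : ℕ) : ℝ) ^ d * ∑ m ∈ Finset.Icc M (2 * M - 1),
        (((m + 1 : ℕ) : ℝ) * (d * ((k + 1 : ℕ) : ℝ))) ^ (m + 1) *
          (2 ^ ((m + 3) ^ 2) * P ^ m) =
      ∑ m ∈ Finset.Icc M (2 * M - 1),
      ((((m + 1 : ℕ) : ℝ) * d) ^ (m + 1) * 2 ^ ((m + 3) ^ 2)) *
        (((k + 1 : ℕ) : ℝ) ^ ((d + 1) + m) * P ^ m) := by
    rw [Finset.mul_sum]
    apply Finset.sum_congr rfl
    intro m _
    ring
  have B2 : (1 - P) ^ ((k + 1) ^ 2) ≤ Real.exp (-((k + 1 : ℕ) : ℝ) ^ (1 - ε)) := by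
    calc (1 - P) ^ ((k + 1) ^ 2) ≤ (Real.exp (-P)) ^ ((k + 1) ^ 2) := by
          apply pow_le_pow_left₀ (by linarith)
          have := Real.add_one_le_exp (-P)
          linarith
      _ = Real.exp (-((k + 1 : ℕ) : ℝ) ^ (1 - ε)) := by
          rw [← Real.exp_nat_mul]
          congr 1
          have : ((k + 1 : ℕ) : ℝ) ^ (1 - ε) = ((k + 1 : ℕ) : ℝ) ^ 2 * P := by
            rw [hP, ← Real.rpow_natCast ((k + 1 : ℕ) : ℝ) 2, ← Real.rpow_add hn0]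
            congr 1
            push_cast
            ring
          rw [this]
          push_cast
          ring
  have B3 : (((k + 1) ^ 2 : ℕ) : ℝ) / ((k ^ 3 : ℕ) : ℝ) * ∑ m ∈ Finset.Icc 2 (M - 1),
        (((m + 1 : ℕ) : ℝ) * (d * ((k + 1 : ℕ) : ℝ))) ^ (m + 1) * (m + 2) *
          (2 ^ ((m + 3) ^ 2) * P ^ m) ≤
      ∑ m ∈ Finset.Icc 2 (M - 1),
      (8 * ((((m + 1 : ℕ) : ℝ) * d) ^ (m + 1) * (m + 2) * 2 ^ ((m + 3) ^ 2))) *
        (((k + 1 : ℕ) : ℝ) ^ (0 + m) * P ^ m) := by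
    rw [Finset.mul_sum]
    apply Finset.sum_le_sum
    intro m _
    have h8 : (((k + 1) ^ 2 : ℕ) : ℝ) / ((k ^ 3 : ℕ) : ℝ) * ((k + 1 : ℕ) : ℝ) ≤ 8 := by
      rw [div_mul_eq_mul_div, div_le_iff₀ (by positivity)]
      push_cast
      have hk1 : (1 : ℝ) ≤ k := by
        have : 1 ≤ k := by omega
        exact_mod_cast this
      have h2k : (k : ℝ) + 1 ≤ 2 * k := by linarith
      have h9 := pow_le_pow_left₀ (by linarith : (0 : ℝ) ≤ (k : ℝ) + 1) h2k 3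
      have e1 : ((k : ℝ) + 1) ^ 2 * ((k : ℝ) + 1) = ((k : ℝ) + 1) ^ 3 := by ring
      have e2 : (2 * (k : ℝ)) ^ 3 = 8 * (k : ℝ) ^ 3 := by ring
      linarith
    have hrest : 0 ≤ (((m + 1 : ℕ) : ℝ) * d) ^ (m + 1) * (m + 2) * 2 ^ ((m + 3) ^ 2) *
        (((k + 1 : ℕ) : ℝ) ^ (0 + m) * P ^ m) := by positivity
    calc (((k + 1) ^ 2 : ℕ) : ℝ) / ((k ^ 3 : ℕ) : ℝ) *
        ((((m + 1 : ℕ) : ℝ) * (d * ((k + 1 : ℕ) : ℝ))) ^ (m + 1) * (m + 2) *
          (2 ^ ((m + 3) ^ 2) * P ^ m))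
        = ((((k + 1) ^ 2 : ℕ) : ℝ) / ((k ^ 3 : ℕ) : ℝ) * ((k + 1 : ℕ) : ℝ)) *
          ((((m + 1 : ℕ) : ℝ) * d) ^ (m + 1) * (m + 2) * 2 ^ ((m + 3) ^ 2) *
        (((k + 1 : ℕ) : ℝ) ^ (0 + m) * P ^ m)) := by ring
      _ ≤ 8 * ((((m + 1 : ℕ) : ℝ) * d) ^ (m + 1) * (m + 2) * 2 ^ ((m + 3) ^ 2) *
        (((k + 1 : ℕ) : ℝ) ^ (0 + m) * P ^ m)) := mul_le_mul_of_nonneg_right h8 hrest
      _ = _ := by ring
  rw [B1] at hmain
  linarith

end Pool.Agent.H.MP_82e03f_pr
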