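import Pool.Agent.H.MP_82e03f_pr.Det

/-!
Certificates for occupied edges.
-/

namespace Pool.Agent.H.MP_82e03f_pr

variable {n d : ℕ}

/-- the vertex sets that can be obtained from `W` by `k` times adding a vertex that differs in at
most one coordinate from a vertex already present. -/
def steps (W : Finset (Fin d → Fin n)) : ℕ → Finset (Finset (Fin d → Fin n))
  | 0 => {W}
  | k + 1 => (steps W k).biUnion fun W' =>
      (W' ×ˢ ((Finset.univ : Finset (Fin d)) ×ˢ (Finset.univ : Finset (Fin n)))).image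
        fun q => insert (Function.update q.1 q.2.1 q.2.2) W'

theorem mem_steps_succ {W W' : Finset (Fin d → Fin n)} {k : ℕ} :
    W' ∈ steps W (k + 1) ↔ ∃ W'' ∈ steps W k, ∃ v ∈ W'', ∃ c a,
      W' = insert (Function.update v c a) W'' := by
  simp only [steps, Finset.mem_biUnion, Finset.mem_image, Finset.mem_product, Finset.mem_univ,
    and_true, Prod.exists]
  constructor
  · rintro ⟨W'', h, v, c, a, hv, rfl⟩
    exact ⟨W'', h, v, hv, c, a, rfl⟩
  · rintro ⟨W'', h, v, hv, c, a, rfl⟩
    exact ⟨W'', h, v, c, a, hv, rfl⟩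

theorem subset_of_mem_steps {W W' : Finset (Fin d → Fin n)} {k : ℕ} (h : W' ∈ steps W k) :
    W ⊆ W' := by
  induction k generalizing W' with
  | zero => simp only [steps, Finset.mem_singleton] at h; rw [h]
  | succ k ih =>
    obtain ⟨W'', h1, v, _, c, a, rfl⟩ := mem_steps_succ.1 h
    exact (ih h1).trans (Finset.subset_insert _ _)

theorem steps_trans {W W' W'' : Finset (Fin d → Fin n)} {k l : ℕ} (h : W' ∈ steps W k)
    (h' : W'' ∈ steps W' l) : W'' ∈ steps W (k + l) := by
  induction l generalizing W'' with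
  | zero => simp only [steps, Finset.mem_singleton] at h'; rw [h']; exact h
  | succ l ih =>
    obtain ⟨W3, h1, v, hv, c, a, rfl⟩ := mem_steps_succ.1 h'
    exact mem_steps_succ.2 ⟨W3, ih h1, v, hv, c, a, rfl⟩

theorem steps_succ_mono (hd : 0 < d) {W W' : Finset (Fin d → Fin n)} {k : ℕ}
    (hW : W.Nonempty) (h : W' ∈ steps W k) : W' ∈ steps W (k + 1) := by
  obtain ⟨v, hv⟩ := hW
  have hv' := subset_of_mem_steps h hv
  refine mem_steps_succ.2 ⟨W', h, v, hv', ⟨0, hd⟩, v ⟨0, hd⟩, ?_⟩
  rw [Function.update_eq_self, Finset.insert_eq_of_mem hv']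

theorem steps_mono (hd : 0 < d) {W W' : Finset (Fin d → Fin n)} {k l : ℕ} (hkl : k ≤ l)
    (hW : W.Nonempty) (h : W' ∈ steps W k) : W' ∈ steps W l := by
  induction l, hkl using Nat.le_induction with
  | base => exact h
  | succ l _ ih => exact steps_succ_mono hd hW ih

theorem card_of_mem_steps {W W' : Finset (Fin d → Fin n)} {k : ℕ} (h : W' ∈ steps W k) :
    W'.card ≤ W.card + k := by
  induction k generalizing W' with
  | zero => simp only [steps, Finset.mem_singleton] at h; rw [h]; simp
  | succ k ih =>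
    obtain ⟨W'', h1, v, _, c, a, rfl⟩ := mem_steps_succ.1 h
    have := ih h1
    have := Finset.card_insert_le (Function.update v c a) W''
    omega

theorem hammingDist_update_le (x v : Fin d → Fin n) (c : Fin d) (a : Fin n) :
    hammingDist x (Function.update v c a) ≤ hammingDist x v + 1 := by
  have h1 := hammingDist_triangle x v (Function.update v c a)
  have h2 : hammingDist v (Function.update v c a) ≤ 1 := by
    rcases eq_or_ne (v c) a with h | h
    · rw [← h, Function.update_eq_self, hammingDist_self]; simp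
    · have := hammingDist_update (x := v) (j := c) h
      rw [Function.update_eq_self] at this
      rw [this]
  omega

theorem dist_of_mem_steps {x : Fin d → Fin n} {W' : Finset (Fin d → Fin n)} {k : ℕ}
    (h : W' ∈ steps {x} k) {v : Fin d → Fin n} (hv : v ∈ W') : hammingDist x v ≤ k := by
  induction k generalizing W' v with
  | zero =>
    simp only [steps, Finset.mem_singleton] at h
    rw [h, Finset.mem_singleton] at hv
    rw [hv, hammingDist_self]
  | succ k ih =>
    obtain ⟨W'', h1, u, hu, c, a, rfl⟩ := mem_steps_succ.1 h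
    rcases Finset.mem_insert.1 hv with rfl | hv
    · have := ih h1 hu
      have := hammingDist_update_le x u c a
      omega
    · have := ih h1 hv
      omega

theorem card_steps_le (x : Fin d → Fin n) (k : ℕ) :
    (steps {x} k).card ≤ (k * (d * n)) ^ k := by
  induction k with
  | zero => simp [steps]
  | succ k ih =>
    calc (steps {x} (k + 1)).card ≤ (steps {x} k).card * ((k + 1) * (d * n)) := by
          apply Finset.card_biUnion_le_card_mul
          intro W' hW'
          refine Finset.card_image_le.trans ?_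
          rw [Finset.card_product, Finset.card_product, Finset.card_univ, Finset.card_univ,
            Fintype.card_fin, Fintype.card_fin]
          apply Nat.mul_le_mul_right
          have := card_of_mem_steps hW'
          rw [Finset.card_singleton] at this
          omega
      _ ≤ (k * (d * n)) ^ k * ((k + 1) * (d * n)) := Nat.mul_le_mul_right _ ih
      _ ≤ ((k + 1) * (d * n)) ^ k * ((k + 1) * (d * n)) := by
          apply Nat.mul_le_mul_right
          apply Nat.pow_le_pow_left
          apply Nat.mul_le_mul_right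
          omega
      _ = ((k + 1) * (d * n)) ^ (k + 1) := (pow_succ _ _).symm

theorem exists_update_of_adj {x y : Fin d → Fin n} (h : hammingDist x y = 1) :
    ∃ c a, y = Function.update x c a := by
  unfold hammingDist at h
  rw [Finset.card_eq_one] at h
  obtain ⟨c, hc⟩ := h
  refine ⟨c, y c, ?_⟩
  funext k
  rcases eq_or_ne k c with rfl | hk
  · simp
  · rw [Function.update_of_ne hk]
    by_contra hne
    have : k ∈ (Finset.univ.filter fun i => x i ≠ y i) := by
      rw [Finset.mem_filter]
      exact ⟨Finset.mem_univ _, fun h => hne h.symm⟩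
    rw [hc, Finset.mem_singleton] at this
    exact hk this

theorem occInf_mono {O O' : Set (Sym2 (Fin d → Fin n))} (h : O ⊆ O') :
    occInf n d O ⊆ occInf n d O' :=
  Set.iUnion_mono fun t => occ_mono_open h t

/-- Depth first search: the certificate lemma. -/
theorem dfs (F : Set (Sym2 (Fin d → Fin n))) (t : ℕ) : ∀ x y : Fin d → Fin n,
    s(x, y) ∈ occ n d F t → ∀ (W : Finset (Fin d → Fin n)) (X : Finset (Sym2 (Fin d → Fin n))),
    x ∈ W → (∀ e ∈ X, ∀ v ∈ e, v ∈ W) → (∀ e ∈ X, e ∈ occInf n d (X : Set (Sym2 (Fin d → Fin n)))) →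
    (∀ e ∈ X, e ∈ F) →
    ∃ (W' : Finset (Fin d → Fin n)) (X' : Finset (Sym2 (Fin d → Fin n))) (k : ℕ),
      W' ∈ steps W k ∧ X ⊆ X' ∧ (∀ e ∈ X', e ∈ F) ∧ y ∈ W' ∧ (∀ e ∈ X', ∀ v ∈ e, v ∈ W') ∧
      (∀ e ∈ X', e ∈ occInf n d (X' : Set (Sym2 (Fin d → Fin n)))) ∧
      s(x, y) ∈ occInf n d (X' : Set (Sym2 (Fin d → Fin n))) ∧
      k + X.card ≤ X'.card + 1 ∧ (∀ e ∈ X', e ∉ X → e ∈ occ n d F t) := by
  classical
  induction t with
  | zero =>
    intro x y hxy W X hxW h1 h2 h3
    have hadj : hammingDist x y = 1 := hxy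
    obtain ⟨c, a, hca⟩ := exists_update_of_adj hadj
    refine ⟨insert y W, X, 1, ?_, subset_rfl, h3, Finset.mem_insert_self _ _, ?_, h2, ?_, ?_, ?_⟩
    · exact mem_steps_succ.2 ⟨W, by simp [steps], x, hxW, c, a, by rw [hca]⟩
    · intro e he v hv
      exact Finset.mem_insert_of_mem (h1 e he v hv)
    · exact edge_mem_occInf hxy
    · omega
    · intro e he he'
      exact absurd he he'
  | succ t ih =>
    intro x y hxy W X hxW h1 h2 h3
    by_cases hold : s(x, y) ∈ occ n d F t
    · obtain ⟨W', X', k, g1, g2, g3, g4, g5, g6, g7, g8, g9⟩ := ih x y hold W X hxW h1 h2 h3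
      exact ⟨W', X', k, g1, g2, g3, g4, g5, g6, g7, g8,
        fun e he he' => occ_mono F (Nat.le_succ t) (g9 e he he')⟩
    · have hF : s(x, y) ∈ F ∧ ∃ z, s(x, z) ∈ occ n d F t ∧ s(z, y) ∈ occ n d F t := by
        rcases hxy with h | ⟨hF, x', y', z, he, hz1, hz2⟩
        · exact absurd h hold
        · refine ⟨hF, z, ?_⟩
          rcases Sym2.eq_iff.1 he with ⟨rfl, rfl⟩ | ⟨rfl, rfl⟩
          · exact ⟨hz1, hz2⟩
          · exact ⟨by rw [Sym2.eq_swap]; exact hz2, by rw [Sym2.eq_swap]; exact hz1⟩
      obtain ⟨hF, z, hz1, hz2⟩ := hF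
      by_cases hX : s(x, y) ∈ X
      · refine ⟨W, X, 0, by simp [steps], subset_rfl, h3, ?_, h1, h2, h2 _ hX, by omega, ?_⟩
        · exact h1 _ hX y (Sym2.mem_mk_right x y)
        · intro e he he'
          exact absurd he he'
      · obtain ⟨W1, X1, k1, g1, g2, g3, g4, g5, g6, g7, g8, g9⟩ := ih x z hz1 W X hxW h1 h2 h3
        obtain ⟨W2, X2, k2, f1, f2, f3, f4, f5, f6, f7, f8, f9⟩ := ih z y hz2 W1 X1 g4 g5 g6 g3
        have hnot : s(x, y) ∉ X2 := by
          intro hmem
          by_cases hm1 : s(x, y) ∈ X1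
          · exact hold (g9 _ hm1 hX)
          · exact hold (f9 _ hmem hm1)
        have hsub2 : (X2 : Set (Sym2 (Fin d → Fin n))) ⊆ (insert s(x, y) X2 : Finset _) := by
          intro e he
          exact Finset.mem_insert_of_mem he
        have hsub1 : (X1 : Set (Sym2 (Fin d → Fin n))) ⊆ (insert s(x, y) X2 : Finset _) := by
          intro e he
          exact Finset.mem_insert_of_mem (f2 he)
        have hcert : s(x, y) ∈ occInf n d ((insert s(x, y) X2 : Finset _) : Set _) := by
          apply occInf_step (z := z)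
          · exact Finset.mem_insert_self _ _
          · exact occInf_mono hsub1 g7
          · exact occInf_mono hsub2 f7
        have hWx : x ∈ W2 := subset_of_mem_steps f1 (subset_of_mem_steps g1 hxW)
        refine ⟨W2, insert s(x, y) X2, k1 + k2, steps_trans g1 f1, ?_, ?_, f4, ?_, ?_, hcert, ?_, ?_⟩
        · intro e he
          exact Finset.mem_insert_of_mem (f2 (g2 he))
        · intro e he
          rcases Finset.mem_insert.1 he with rfl | he
          · exact hF
          · exact f3 e he
        · intro e he v hv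
          rcases Finset.mem_insert.1 he with rfl | he
          · rcases Sym2.mem_iff.1 hv with rfl | rfl
            · exact hWx
            · exact f4
          · exact f5 e he v hv
        · intro e he
          rcases Finset.mem_insert.1 he with rfl | he
          · exact hcert
          · exact occInf_mono hsub2 (f6 e he)
        · rw [Finset.card_insert_of_notMem hnot]
          omega
        · intro e he he'
          rcases Finset.mem_insert.1 he with rfl | he
          · exact Or.inr ⟨hF, x, y, z, rfl, hz1, hz2⟩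
          · apply occ_mono F (Nat.le_succ t)
            by_cases hm1 : e ∈ X1
            · exact g9 e hm1 he'
            · exact f9 e he hm1

/-- A minimal certificate lives on few vertices. -/
theorem exists_min_cert (hd : 0 < d) {O : Set (Sym2 (Fin d → Fin n))} {x y : Fin d → Fin n}
    (h : s(x, y) ∈ occInf n d O) :
    ∃ (X : Finset (Sym2 (Fin d → Fin n))) (W : Finset (Fin d → Fin n)),
      (∀ e ∈ X, e ∈ O) ∧ s(x, y) ∈ occInf n d (X : Set (Sym2 (Fin d → Fin n))) ∧
      (∀ X' : Finset (Sym2 (Fin d → Fin n)), (∀ e ∈ X', e ∈ O) →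
        s(x, y) ∈ occInf n d (X' : Set (Sym2 (Fin d → Fin n))) → X.card ≤ X'.card) ∧
      W ∈ steps {x} (X.card + 1) ∧ y ∈ W ∧ (∀ e ∈ X, ∀ v ∈ e, v ∈ W) := by
  classical
  have hdfs : ∀ F : Set (Sym2 (Fin d → Fin n)), s(x, y) ∈ occInf n d F →
      ∃ (X : Finset (Sym2 (Fin d → Fin n))) (W : Finset (Fin d → Fin n)),
      (∀ e ∈ X, e ∈ F) ∧ s(x, y) ∈ occInf n d (X : Set (Sym2 (Fin d → Fin n))) ∧
      W ∈ steps {x} (X.card + 1) ∧ y ∈ W ∧ (∀ e ∈ X, ∀ v ∈ e, v ∈ W) := by
    intro F hF
    obtain ⟨t, ht⟩ := Set.mem_iUnion.1 hF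
    obtain ⟨W', X', k, g1, g2, g3, g4, g5, g6, g7, g8, g9⟩ := dfs F t x y ht {x} ∅
      (Finset.mem_singleton_self _) (by simp) (by simp) (by simp)
    refine ⟨X', W', g3, g7, ?_, g4, g5⟩
    apply steps_mono hd _ (Finset.singleton_nonempty x) g1
    simpa using g8
  -- choose a certificate of minimal cardinality
  let P : ℕ → Prop := fun m => ∃ X : Finset (Sym2 (Fin d → Fin n)), X.card = m ∧
    (∀ e ∈ X, e ∈ O) ∧ s(x, y) ∈ occInf n d (X : Set (Sym2 (Fin d → Fin n)))
  have hP : ∃ m, P m := by
    obtain ⟨X, W, h1, h2, _⟩ := hdfs O h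
    exact ⟨X.card, X, rfl, h1, h2⟩
  obtain ⟨X, hXc, hX1, hX2⟩ := Nat.find_spec hP
  have hmin : ∀ X' : Finset (Sym2 (Fin d → Fin n)), (∀ e ∈ X', e ∈ O) →
        s(x, y) ∈ occInf n d (X' : Set (Sym2 (Fin d → Fin n))) → X.card ≤ X'.card := by
    intro X' h1 h2
    rw [hXc]
    exact Nat.find_min' hP ⟨X', rfl, h1, h2⟩
  obtain ⟨X', W, f1, f2, f3, f4, f5⟩ := hdfs (X : Set (Sym2 (Fin d → Fin n))) hX2
  have hsub : X' ⊆ X := fun e he => by simpa using f1 e he
  have heq : X' = X := by
    apply Finset.eq_of_subset_of_card_le hsub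
    exact hmin X' (fun e he => hX1 e (hsub he)) f2
  subst heq
  exact ⟨X', W, hX1, hX2, hmin, f3, f4, f5⟩

/-- There are `m` open edges living on a vertex set obtained from `{x}` by `m + 1` steps. -/
def Struct (O : Set (Sym2 (Fin d → Fin n))) (x : Fin d → Fin n) (m : ℕ) : Prop :=
  ∃ W ∈ steps {x} (m + 1), ∃ X : Finset (Sym2 (Fin d → Fin n)), X.card = m ∧
    (∀ e ∈ X, e ∈ O) ∧ (∀ e ∈ X, ∀ v ∈ e, v ∈ W)

/-- The size-doubling argument. -/
theorem small_cert (hd : 0 < d) {O : Set (Sym2 (Fin d → Fin n))} {M : ℕ} (hM : 1 ≤ M)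
    (hbad : ∀ x m, M ≤ m → m ≤ 2 * M - 1 → ¬ Struct O x m) (t : ℕ) :
    ∀ x y : Fin d → Fin n, s(x, y) ∈ occ n d O t →
    ∃ X : Finset (Sym2 (Fin d → Fin n)), (∀ e ∈ X, e ∈ O) ∧
      s(x, y) ∈ occInf n d (X : Set (Sym2 (Fin d → Fin n))) ∧ X.card ≤ M - 1 := by
  classical
  induction t with
  | zero =>
    intro x y hxy
    exact ⟨∅, by simp, edge_mem_occInf hxy, by simp⟩
  | succ t ih =>
    intro x y hxy
    rcases hxy with hxy | ⟨hO, x', y', z, he, hz1, hz2⟩
    · exact ih x y hxy
    · obtain ⟨X1, a1, a2, a3⟩ := ih _ _ hz1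
      obtain ⟨X2, b1, b2, b3⟩ := ih _ _ hz2
      have hinf : s(x, y) ∈ occInf n d ((insert s(x, y) (X1 ∪ X2) : Finset _) : Set _) := by
        have key : s(x', y') ∈ occInf n d ((insert s(x, y) (X1 ∪ X2) : Finset _) : Set _) := by
          apply occInf_step (z := z)
          · rw [← he]; exact Finset.mem_insert_self _ _
          · apply occInf_mono _ a2
            intro e he
            exact Finset.mem_insert_of_mem (Finset.mem_union_left _ he)
          · apply occInf_mono _ b2
            intro e he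
            exact Finset.mem_insert_of_mem (Finset.mem_union_right _ he)
        rw [he]
        rw [he] at key
        exact key
      have hsubO : ∀ e ∈ (insert s(x, y) (X1 ∪ X2) : Finset _), e ∈ O := by
        intro e he
        rcases Finset.mem_insert.1 he with rfl | he
        · exact hO
        · rcases Finset.mem_union.1 he with he | he
          · exact a1 e he
          · exact b1 e he
      have hcard : (insert s(x, y) (X1 ∪ X2) : Finset _).card ≤ 2 * M - 1 := by
        have e1 := Finset.card_insert_le s(x, y) (X1 ∪ X2)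
        have e2 := Finset.card_union_le X1 X2
        omega
      have hinfO : s(x, y) ∈ occInf n d O := by
        apply occInf_mono _ hinf
        intro e he
        exact hsubO e he
      obtain ⟨X, W, c1, c2, c3, c4, c5, c6⟩ := exists_min_cert hd hinfO
      have hle := c3 _ hsubO hinf
      refine ⟨X, c1, c2, ?_⟩
      by_contra hcon
      push Not at hcon
      exact hbad x X.card (by omega) (by omega) ⟨W, c4, X, rfl, c1, c6⟩

/-- On the good event every open edge at distance at least `3` that gets occupied has a small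
certificate with at least two edges. -/
theorem small_struct (hd : 0 < d) {O : Set (Sym2 (Fin d → Fin n))} {M : ℕ} (hM : 1 ≤ M)
    (hbad : ∀ x m, M ≤ m → m ≤ 2 * M - 1 → ¬ Struct O x m) {x y : Fin d → Fin n}
    (hxy : 3 ≤ hammingDist x y) (h : s(x, y) ∈ occInf n d O) :
    ∃ m, 2 ≤ m ∧ m ≤ M - 1 ∧ ∃ W ∈ steps {x} (m + 1), y ∈ W ∧
      ∃ X : Finset (Sym2 (Fin d → Fin n)), X.card = m ∧
      (∀ e ∈ X, e ∈ O) ∧ (∀ e ∈ X, ∀ v ∈ e, v ∈ W) := by
  obtain ⟨t, ht⟩ := Set.mem_iUnion.1 h
  obtain ⟨X0, a1, a2, a3⟩ := small_cert hd hM hbad t x y ht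
  obtain ⟨X, W, c1, c2, c3, c4, c5, c6⟩ := exists_min_cert hd h
  have h1 := c3 X0 a1 a2
  have h2 := dist_of_mem_steps c4 c5
  exact ⟨X.card, by omega, by omega, W, c4, c5, X, rfl, c1, c6⟩

end Pool.Agent.H.MP_82e03f_pr
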