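import Mathlib

/-!
Definitions for the polluted transitive closure on Hamming graphs.
-/

namespace Pool.Agent.H.MP_82e03f_pr

open ProbabilityTheory unitInterval

/-- The Hamming graph on `[n]^d` (the Cartesian product of `d` copies of the complete graph on
`[n]`): two vertices are adjacent iff they differ in exactly one coordinate. -/
def hamming (n d : ℕ) : SimpleGraph (Fin d → Fin n) where
  Adj x y := hammingDist x y = 1
  symm := ⟨fun x y h => by rw [hammingDist_comm]; exact h⟩
  loopless := ⟨fun x h => by simp at h⟩

/-- The set `E_t` of edges occupied at time `t`, when the set of open edges is `O`.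
`E_0` is the edge set of the Hamming graph, and `E_{t+1}` is obtained from `E_t` by adding every
open pair `{x, y}` for which there is a `z` with `{x, z} ∈ E_t` and `{z, y} ∈ E_t`. -/
def occ (n d : ℕ) (O : Set (Sym2 (Fin d → Fin n))) : ℕ → Set (Sym2 (Fin d → Fin n))
  | 0 => (hamming n d).edgeSet
  | t + 1 => occ n d O t ∪
      {e | e ∈ O ∧ ∃ x y z, e = s(x, y) ∧ s(x, z) ∈ occ n d O t ∧ s(z, y) ∈ occ n d O t}

/-- The vertex set is saturated: `E_∞ = E_0 ∪ E_open`. -/
def Saturated (n d : ℕ) (O : Set (Sym2 (Fin d → Fin n))) : Prop :=
  (⋃ t, occ n d O t) = (hamming n d).edgeSet ∪ O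

/-- The probability that the vertex set is saturated, when every pair of distinct vertices which
is not an edge of the Hamming graph is open independently with probability `p`. -/
noncomputable def probSat (n d : ℕ) (p : I) : ℝ :=
  (setBernoulli ((hamming n d)ᶜ.edgeSet) p).real {O | Saturated n d O}

/-- The critical density: the infimum of the `p ∈ [0, 1]` such that saturation has probability at
least `1/2` for all densities `q ≥ p` of the open edges. -/
noncomputable def pc (n d : ℕ) : ℝ :=
  sInf {p : ℝ | p ∈ Set.Icc (0 : ℝ) 1 ∧ ∀ q : I, p ≤ q → 1 / 2 ≤ probSat n d q}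

end Pool.Agent.H.MP_82e03f_pr
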