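import Pool.Agent.H.MP_82e03f_pr.Prob

/-!
Deterministic facts about the dynamics, and the deterministic criterion for saturation.
-/

namespace Pool.Agent.H.MP_82e03f_pr

variable {n d : ℕ}

theorem hamming_adj {x y : Fin d → Fin n} : (hamming n d).Adj x y ↔ hammingDist x y = 1 := Iff.rfl

theorem occ_mono (O : Set (Sym2 (Fin d → Fin n))) : Monotone (occ n d O) := by
  apply monotone_nat_of_le_succ
  intro t
  exact Set.subset_union_left

theorem occ_mono_open {O O' : Set (Sym2 (Fin d → Fin n))} (h : O ⊆ O') (t : ℕ) :
    occ n d O t ⊆ occ n d O' t := by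
  induction t with
  | zero => exact subset_rfl
  | succ t ih =>
    intro e he
    rcases he with he | ⟨heO, x, y, z, rfl, h1, h2⟩
    · exact Or.inl (ih he)
    · exact Or.inr ⟨h heO, x, y, z, rfl, ih h1, ih h2⟩

/-- The set of eventually occupied edges. -/
def occInf (n d : ℕ) (O : Set (Sym2 (Fin d → Fin n))) : Set (Sym2 (Fin d → Fin n)) :=
  ⋃ t, occ n d O t

theorem edge_mem_occInf {O : Set (Sym2 (Fin d → Fin n))} {e : Sym2 (Fin d → Fin n)}
    (h : e ∈ (hamming n d).edgeSet) : e ∈ occInf n d O :=
  Set.mem_iUnion.2 ⟨0, h⟩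

theorem occInf_step {O : Set (Sym2 (Fin d → Fin n))} {x y z : Fin d → Fin n}
    (h : s(x, y) ∈ O) (h1 : s(x, z) ∈ occInf n d O) (h2 : s(z, y) ∈ occInf n d O) :
    s(x, y) ∈ occInf n d O := by
  obtain ⟨t1, h1⟩ := Set.mem_iUnion.1 h1
  obtain ⟨t2, h2⟩ := Set.mem_iUnion.1 h2
  refine Set.mem_iUnion.2 ⟨max t1 t2 + 1, Or.inr ⟨h, x, y, z, rfl, ?_, ?_⟩⟩
  · exact occ_mono O (le_max_left _ _) h1
  · exact occ_mono O (le_max_right _ _) h2

theorem occ_subset (O : Set (Sym2 (Fin d → Fin n))) (t : ℕ) :
    occ n d O t ⊆ (hamming n d).edgeSet ∪ O := by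
  induction t with
  | zero => exact Set.subset_union_left
  | succ t ih =>
    intro e he
    rcases he with he | ⟨heO, _⟩
    · exact ih he
    · exact Or.inr heO

theorem occInf_subset (O : Set (Sym2 (Fin d → Fin n))) :
    occInf n d O ⊆ (hamming n d).edgeSet ∪ O :=
  Set.iUnion_subset (occ_subset O)

theorem saturated_iff (O : Set (Sym2 (Fin d → Fin n))) :
    Saturated n d O ↔ O ⊆ occInf n d O := by
  unfold Saturated
  constructor
  · intro h e he
    change e ∈ ⋃ t, occ n d O t
    rw [h]
    exact Or.inr he
  · intro h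
    apply Set.Subset.antisymm (occInf_subset O)
    intro e he
    rcases he with he | he
    · exact edge_mem_occInf he
    · exact h he

/-- Replace coordinates `i` and `j` of `x` by `a` and `b`. -/
def upd (x : Fin d → Fin n) (i j : Fin d) (a b : Fin n) : Fin d → Fin n :=
  Function.update (Function.update x i a) j b

theorem upd_inj {x : Fin d → Fin n} {i j : Fin d} (hij : i ≠ j) {a b a' b' : Fin n}
    (h : upd x i j a b = upd x i j a' b') : a = a' ∧ b = b' := by
  have h1 := congrFun h i
  have h2 := congrFun h j
  simp only [upd, Function.update_self, Function.update_of_ne hij] at h1 h2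
  exact ⟨h1, h2⟩

theorem upd_self (x : Fin d → Fin n) (i j : Fin d) : upd x i j (x i) (x j) = x := by
  funext k
  unfold upd
  rcases eq_or_ne k j with rfl | hkj
  · simp
  · rw [Function.update_of_ne hkj]
    rcases eq_or_ne k i with rfl | hki
    · simp
    · rw [Function.update_of_ne hki]

theorem hammingDist_update {x : Fin d → Fin n} {j : Fin d} {b b' : Fin n} (h : b ≠ b') :
    hammingDist (Function.update x j b) (Function.update x j b') = 1 := by
  unfold hammingDist
  rw [Finset.card_eq_one]
  refine ⟨j, ?_⟩
  ext k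
  simp only [Finset.mem_filter, Finset.mem_univ, true_and, Finset.mem_singleton]
  rcases eq_or_ne k j with rfl | hkj
  · simp [h]
  · simp [hkj]

theorem adj_upd_right {x : Fin d → Fin n} {i j : Fin d} {a b b' : Fin n} (h : b ≠ b') :
    s(upd x i j a b, upd x i j a b') ∈ (hamming n d).edgeSet := by
  rw [SimpleGraph.mem_edgeSet, hamming_adj]
  exact hammingDist_update h

theorem adj_upd_left {x : Fin d → Fin n} {i j : Fin d} (hij : i ≠ j) {a a' b : Fin n}
    (h : a ≠ a') :
    s(upd x i j a b, upd x i j a' b) ∈ (hamming n d).edgeSet := by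
  rw [SimpleGraph.mem_edgeSet, hamming_adj]
  unfold upd
  rw [Function.update_comm hij, Function.update_comm hij]
  exact hammingDist_update h

theorem hammingDist_upd_lt {x y : Fin d → Fin n} {i j : Fin d} (hij : i ≠ j)
    (hi : x i ≠ y i) (hj : x j ≠ y j) (b : Fin n) :
    hammingDist (upd x i j (y i) b) y < hammingDist x y := by
  unfold hammingDist
  apply Finset.card_lt_card
  rw [Finset.ssubset_iff_of_subset]
  · refine ⟨i, by simpa using hi, ?_⟩
    rw [Finset.mem_filter]
    rintro ⟨-, h⟩
    apply h
    simp [upd, Function.update_of_ne hij]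
  · intro k hk
    simp only [Finset.mem_filter, Finset.mem_univ, true_and] at hk ⊢
    rcases eq_or_ne k j with rfl | hkj
    · exact hj
    · rcases eq_or_ne k i with rfl | hki
      · exact hi
      · simpa [upd, Function.update_of_ne hkj, Function.update_of_ne hki] using hk

/-- every nontrivial cut of the plane contains a good pair. -/
def NoCut (O : Set (Sym2 (Fin d → Fin n))) (x y : Fin d → Fin n) (i j : Fin d) : Prop :=
  ∀ c : Finset (Fin n) × Finset (Fin n), c ≠ (∅, ∅) → c ≠ (Finset.univ, Finset.univ) →
    ∃ a b, ((a ∈ c.1 ∧ b ∉ c.2) ∨ (a ∉ c.1 ∧ b ∈ c.2)) ∧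
      s(upd x i j a b, y) ∈ (hamming n d).edgeSet ∪ O

theorem saturated_of_noCut {O : Set (Sym2 (Fin d → Fin n))} (hO : O ⊆ (hamming n d)ᶜ.edgeSet)
    (h : ∀ x y : Fin d → Fin n, 3 ≤ hammingDist x y → ∀ i j : Fin d, i ≠ j → x i ≠ y i →
      x j ≠ y j → NoCut O x y i j) : Saturated n d O := by
  classical
  rw [saturated_iff]
  suffices H : ∀ k : ℕ, ∀ x y : Fin d → Fin n, hammingDist x y = k → s(x, y) ∈ O →
      s(x, y) ∈ occInf n d O by
    intro e he
    induction e using Sym2.ind with
    | _ x y => exact H _ x y rfl he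
  intro k
  induction k using Nat.strong_induction_on with
  | _ k ih =>
  intro x y hk hxy
  have hne : x ≠ y := by
    have := hO hxy
    rw [SimpleGraph.mem_edgeSet, SimpleGraph.compl_adj] at this
    exact this.1
  have hk0 : k ≠ 0 := by
    rintro rfl
    exact hne (hammingDist_eq_zero.1 hk)
  rcases Nat.lt_or_ge k 2 with hk1 | hk2
  · have : k = 1 := by omega
    subst this
    exact edge_mem_occInf (by rw [SimpleGraph.mem_edgeSet, hamming_adj]; exact hk)
  -- pick two differing coordinates
  have hcard : 1 < (Finset.univ.filter fun l => x l ≠ y l).card := by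
    have : (Finset.univ.filter fun l => x l ≠ y l).card = k := hk
    omega
  obtain ⟨i, hi, j, hj, hij⟩ := Finset.one_lt_card.1 hcard
  simp only [Finset.mem_filter, Finset.mem_univ, true_and] at hi hj
  rcases Nat.lt_or_ge k 3 with hk3 | hk3
  · have hk' : k = 2 := by omega
    subst hk'
    -- the vertex in the middle
    have h1 : hammingDist x (Function.update x i (y i)) = 1 := by
      have := hammingDist_update (x := x) (j := i) hi
      rwa [Function.update_eq_self] at this
    have h2 : hammingDist (Function.update x i (y i)) y = 1 := by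
      have hlt : hammingDist (Function.update x i (y i)) y < 2 := by
        rw [← hk]
        have := hammingDist_upd_lt hij hi hj (x j)
        unfold upd at this
        rwa [Function.update_comm hij, Function.update_eq_self] at this
      have hge : hammingDist (Function.update x i (y i)) y ≠ 0 := by
        intro h0
        have := hammingDist_eq_zero.1 h0
        have := congrFun this j
        rw [Function.update_of_ne hij.symm] at this
        exact hj this
      omega
    exact occInf_step hxy (edge_mem_occInf (by rw [SimpleGraph.mem_edgeSet]; exact h1))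
      (edge_mem_occInf (by rw [SimpleGraph.mem_edgeSet]; exact h2))
  have hN := h x y (by omega) i j hij hi hj
  set I : Finset (Fin n) := Finset.univ.filter fun a => ∃ b, s(upd x i j a b, y) ∈ occInf n d O
    with hI
  set J : Finset (Fin n) := Finset.univ.filter fun b => ∃ a, s(upd x i j a b, y) ∈ occInf n d O
    with hJ
  have hrow : ∀ a b, a ∈ I → s(upd x i j a b, y) ∈ (hamming n d).edgeSet ∪ O →
      s(upd x i j a b, y) ∈ occInf n d O := by
    intro a b ha hab
    rcases hab with hab | hab
    · exact edge_mem_occInf hab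
    · rw [hI, Finset.mem_filter] at ha
      obtain ⟨b', hb'⟩ := ha.2
      rcases eq_or_ne b b' with rfl | hbb
      · exact hb'
      · exact occInf_step hab (edge_mem_occInf (adj_upd_right hbb)) hb'
  have hcol : ∀ a b, b ∈ J → s(upd x i j a b, y) ∈ (hamming n d).edgeSet ∪ O →
      s(upd x i j a b, y) ∈ occInf n d O := by
    intro a b hb hab
    rcases hab with hab | hab
    · exact edge_mem_occInf hab
    · rw [hJ, Finset.mem_filter] at hb
      obtain ⟨a', ha'⟩ := hb.2
      rcases eq_or_ne a a' with rfl | haa
      · exact ha'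
      · exact occInf_step hab (edge_mem_occInf (adj_upd_left hij haa)) ha'
  have htriv : (I, J) = (∅, ∅) ∨ (I, J) = (Finset.univ, Finset.univ) := by
    by_contra hcon
    rw [not_or] at hcon
    obtain ⟨a, b, hab, hgood⟩ := hN (I, J) hcon.1 hcon.2
    rcases hab with ⟨ha, hb⟩ | ⟨ha, hb⟩
    · have := hrow a b ha hgood
      exact hb (by rw [hJ, Finset.mem_filter]; exact ⟨Finset.mem_univ _, a, this⟩)
    · have := hcol a b hb hgood
      exact ha (by rw [hI, Finset.mem_filter]; exact ⟨Finset.mem_univ _, b, this⟩)
  rcases htriv with htriv | htriv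
  · exfalso
    have hIe : I = ∅ := congrArg Prod.fst htriv
    obtain ⟨a, b, hab, hgood⟩ := hN ({y i}, ∅) (by simp) (by
      intro hcon
      have h2 : (∅ : Finset (Fin n)) = Finset.univ := congrArg Prod.snd hcon
      have : y i ∈ (∅ : Finset (Fin n)) := by rw [h2]; exact Finset.mem_univ _
      simp at this)
    rcases hab with ⟨ha, hb⟩ | ⟨ha, hb⟩
    · rw [Finset.mem_singleton] at ha
      subst ha
      have hlt := hammingDist_upd_lt hij hi hj b
      rw [hk] at hlt
      have hmem : s(upd x i j (y i) b, y) ∈ occInf n d O := by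
        rcases hgood with hg | hg
        · exact edge_mem_occInf hg
        · exact ih _ hlt _ _ rfl hg
      have : y i ∈ I := by rw [hI, Finset.mem_filter]; exact ⟨Finset.mem_univ _, b, hmem⟩
      rw [hIe] at this
      simp at this
    · simp at hb
  · have hIe : I = Finset.univ := congrArg Prod.fst htriv
    have := hrow (x i) (x j) (by rw [hIe]; exact Finset.mem_univ _)
      (by rw [upd_self]; exact Or.inr hxy)
    rwa [upd_self] at this

end Pool.Agent.H.MP_82e03f_pr
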