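import Pool.Agent.H.MP_82e03f_pr.Defs

/-!
Two basic probabilities for the Bernoulli random subset.
-/

namespace Pool.Agent.H.MP_82e03f_pr

open ProbabilityTheory MeasureTheory unitInterval

open scoped ENNReal

section
variable {ι : Type*} {u : Set ι} (p : I)

theorem ber_superset (F : Finset ι) (hF : ∀ i ∈ F, i ∈ u) :
    (setBernoulli u p).real {s | ∀ i ∈ F, i ∈ s} = (p : ℝ) ^ F.card := by
  have h : (setBernoulli u p) {s | ∀ i ∈ F, i ∈ s} = (toNNReal p : ℝ≥0∞) ^ F.card := by
    rw [setBernoulli_apply']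
    have : ((fun p : ι → Prop ↦ {i | p i}) ⁻¹' {s | ∀ i ∈ F, i ∈ s})
        = Set.pi (F : Set ι) (fun _ => {True}) := by
      ext q
      simp
    rw [this, Measure.infinitePi_pi _ (fun i _ => by measurability)]
    rw [Finset.prod_congr rfl (g := fun _ => (toNNReal p : ℝ≥0∞))]
    · simp
    · intro i hi
      simp [hF i hi]
  rw [measureReal_def, h]
  simp

theorem ber_disjoint (F : Finset ι) (hF : ∀ i ∈ F, i ∈ u) :
    (setBernoulli u p).real {s | ∀ i ∈ F, i ∉ s} = (1 - (p : ℝ)) ^ F.card := by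
  have h : (setBernoulli u p) {s | ∀ i ∈ F, i ∉ s} = (toNNReal (σ p) : ℝ≥0∞) ^ F.card := by
    rw [setBernoulli_apply']
    have : ((fun p : ι → Prop ↦ {i | p i}) ⁻¹' {s | ∀ i ∈ F, i ∉ s})
        = Set.pi (F : Set ι) (fun _ => {False}) := by
      ext q
      simp
    rw [this, Measure.infinitePi_pi _ (fun i _ => by measurability)]
    rw [Finset.prod_congr rfl (g := fun _ => (toNNReal (σ p) : ℝ≥0∞))]
    · simp
    · intro i hi
      simp [hF i hi]
  rw [measureReal_def, h]
  simp

end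

end Pool.Agent.H.MP_82e03f_pr
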