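import Pool.Agent.H.MP_82e03f_pr.Det

/-!
The upper bound for the critical density: saturation is likely when `p ≥ n^(-1+ε)`.
-/

namespace Pool.Agent.H.MP_82e03f_pr

open ProbabilityTheory MeasureTheory unitInterval

variable {n d : ℕ}

/-- the sites of a cut -/
def cutSites (c : Finset (Fin n) × Finset (Fin n)) : Finset (Fin n × Fin n) :=
  c.1 ×ˢ c.2ᶜ ∪ c.1ᶜ ×ˢ c.2

theorem mem_cutSites {c : Finset (Fin n) × Finset (Fin n)} {a b : Fin n} :
    (a, b) ∈ cutSites c ↔ ((a ∈ c.1 ∧ b ∉ c.2) ∨ (a ∉ c.1 ∧ b ∈ c.2)) := by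
  simp [cutSites]

theorem card_cutSites (c : Finset (Fin n) × Finset (Fin n)) :
    (cutSites c).card = c.1.card * (n - c.2.card) + (n - c.1.card) * c.2.card := by
  unfold cutSites
  rw [Finset.card_union_of_disjoint]
  · simp [Finset.card_compl]
  · rw [Finset.disjoint_left]
    rintro ⟨a, b⟩ h1 h2
    simp only [Finset.mem_product, Finset.mem_compl] at h1 h2
    exact h2.1 h1.1

theorem upd_ne {x y : Fin d → Fin n} (hxy : 3 ≤ hammingDist x y) (i j : Fin d) (a b : Fin n) :
    upd x i j a b ≠ y := by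
  intro h
  have hsub : (Finset.univ.filter fun k => x k ≠ y k) ⊆ {i, j} := by
    intro k hk
    rw [Finset.mem_filter] at hk
    by_contra hcon
    simp only [Finset.mem_insert, Finset.mem_singleton, not_or] at hcon
    have := congrFun h k
    rw [upd, Function.update_of_ne hcon.2, Function.update_of_ne hcon.1] at this
    exact hk.2 this
  have h1 := Finset.card_le_card hsub
  have h2 := Finset.card_le_two (a := i) (b := j)
  have h3 : (Finset.univ.filter fun k => x k ≠ y k).card = hammingDist x y := rfl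
  omega

theorem prob_cut_le (p : I) (x y : Fin d → Fin n) (hxy : 3 ≤ hammingDist x y) (i j : Fin d)
    (hij : i ≠ j) (c : Finset (Fin n) × Finset (Fin n)) :
    (setBernoulli ((hamming n d)ᶜ.edgeSet) p).real {O | ∀ a b,
      ((a ∈ c.1 ∧ b ∉ c.2) ∨ (a ∉ c.1 ∧ b ∈ c.2)) →
      s(upd x i j a b, y) ∉ (hamming n d).edgeSet ∪ O} ≤
    (1 - (p : ℝ)) ^ (c.1.card * (n - c.2.card) + (n - c.1.card) * c.2.card) := by
  classical
  have hp0 : (0 : ℝ) ≤ 1 - p := by linarith [p.2.2]
  by_cases hspec : ∃ a b, ((a ∈ c.1 ∧ b ∉ c.2) ∨ (a ∉ c.1 ∧ b ∈ c.2)) ∧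
      s(upd x i j a b, y) ∈ (hamming n d).edgeSet
  · obtain ⟨a, b, hab, he⟩ := hspec
    have : {O : Set (Sym2 (Fin d → Fin n)) | ∀ a b,
      ((a ∈ c.1 ∧ b ∉ c.2) ∨ (a ∉ c.1 ∧ b ∈ c.2)) →
      s(upd x i j a b, y) ∉ (hamming n d).edgeSet ∪ O} = ∅ := by
      ext O
      simp only [Set.mem_ofPred_eq, Set.mem_empty_iff_false, iff_false]
      intro h
      exact h a b hab (Or.inl he)
    rw [this, measureReal_empty]
    positivity
  · push Not at hspec
    set F : Finset (Sym2 (Fin d → Fin n)) :=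
      (cutSites c).image (fun ab => s(upd x i j ab.1 ab.2, y)) with hF
    have hcard : F.card = c.1.card * (n - c.2.card) + (n - c.1.card) * c.2.card := by
      rw [hF, Finset.card_image_of_injOn, card_cutSites]
      rintro ⟨a, b⟩ _ ⟨a', b'⟩ _ h
      simp only [Sym2.congr_left] at h
      obtain ⟨h1, h2⟩ := upd_inj hij h
      exact Prod.ext h1 h2
    have hFu : ∀ e ∈ F, e ∈ (hamming n d)ᶜ.edgeSet := by
      intro e he
      rw [hF, Finset.mem_image] at he
      obtain ⟨⟨a, b⟩, hab, rfl⟩ := he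
      rw [SimpleGraph.mem_edgeSet, SimpleGraph.compl_adj]
      refine ⟨upd_ne hxy i j a b, ?_⟩
      have := hspec a b (mem_cutSites.1 hab)
      rwa [SimpleGraph.mem_edgeSet] at this
    rw [← hcard, ← ber_disjoint p F hFu]
    apply measureReal_mono _ (measure_ne_top _ _)
    · intro O hO e he
      rw [hF, Finset.mem_image] at he
      obtain ⟨⟨a, b⟩, hab, rfl⟩ := he
      intro hmem
      exact hO a b (mem_cutSites.1 hab) (Or.inr hmem)

theorem cut_arith_int (n a b a' b' : ℤ) (ha : 0 ≤ a) (hb : 0 ≤ b) (ha' : a + a' = n)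
    (hb' : b + b' = n) (h : a + b ≤ a' + b') : n * (a + b) ≤ 2 * (a * b' + a' * b) := by
  have h1 : a' = n - a := by linarith
  have h2 : b' = n - b := by linarith
  subst h1 h2
  nlinarith [sq_nonneg (a - b), mul_nonneg (by linarith : (0:ℤ) ≤ a + b)
      (by linarith : (0:ℤ) ≤ n - (a + b))]

theorem cut_arith (n i j : ℕ) (hi : i ≤ n) (hj : j ≤ n) :
    n * min (i + j) ((n - i) + (n - j)) ≤ 2 * (i * (n - j) + (n - i) * j) := by
  obtain ⟨i', hi'⟩ := Nat.exists_eq_add_of_le hi
  obtain ⟨j', hj'⟩ := Nat.exists_eq_add_of_le hj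
  have e1 : n - i = i' := by omega
  have e2 : n - j = j' := by omega
  rw [e1, e2]
  rcases le_total (i + j) (i' + j') with h | h
  · rw [min_eq_left h]
    have := cut_arith_int n i j i' j' (by positivity) (by positivity) (by exact_mod_cast hi'.symm)
      (by exact_mod_cast hj'.symm) (by exact_mod_cast h)
    exact_mod_cast this
  · rw [min_eq_right h]
    have := cut_arith_int n i' j' i j (by positivity) (by positivity)
      (by rw [add_comm]; exact_mod_cast hi'.symm)
      (by rw [add_comm]; exact_mod_cast hj'.symm) (by exact_mod_cast h)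
    have h2 : i' * j + i * j' = i * j' + i' * j := by ring
    rw [← h2]
    exact_mod_cast this

theorem sum_pow_card (ρ : ℝ) : ∑ c : Finset (Fin n) × Finset (Fin n), ρ ^ (c.1.card + c.2.card)
    = (1 + ρ) ^ (2 * n) := by
  have h : ∑ A : Finset (Fin n), ρ ^ A.card = (1 + ρ) ^ n := by
    have := Fintype.sum_pow_mul_eq_add_pow (Fin n) ρ 1
    simpa [add_comm] using this
  rw [Fintype.sum_prod_type]
  simp_rw [pow_add]
  simp_rw [← Finset.mul_sum]
  rw [h, ← Finset.sum_mul, h]
  ring

theorem sum_pow_card_compl (ρ : ℝ) :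
    ∑ c : Finset (Fin n) × Finset (Fin n), ρ ^ ((n - c.1.card) + (n - c.2.card))
    = (1 + ρ) ^ (2 * n) := by
  rw [← sum_pow_card ρ]
  apply Fintype.sum_equiv ((Equiv.mk (fun A : Finset (Fin n) => Aᶜ) (fun A => Aᶜ)
    (fun A => compl_compl A) (fun A => compl_compl A)).prodCongr
    (Equiv.mk (fun A : Finset (Fin n) => Aᶜ) (fun A => Aᶜ)
    (fun A => compl_compl A) (fun A => compl_compl A)))
  rintro ⟨A, J⟩
  simp [Finset.card_compl]

theorem prob_noCut (p : I) (x y : Fin d → Fin n) (hxy : 3 ≤ hammingDist x y) (i j : Fin d)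
    (hij : i ≠ j) :
    (setBernoulli ((hamming n d)ᶜ.edgeSet) p).real {O | ¬ NoCut O x y i j} ≤
    2 * ((1 + Real.exp (-(p : ℝ) * n / 2)) ^ (2 * n) - 1) := by
  classical
  set ρ := Real.exp (-(p : ℝ) * n / 2) with hρ
  have hρ0 : 0 < ρ := Real.exp_pos _
  have hρ1 : ρ ≤ 1 := by
    rw [hρ, Real.exp_le_one_iff]
    have : 0 ≤ (p : ℝ) * n := mul_nonneg p.2.1 (Nat.cast_nonneg n)
    linarith
  have hp0 : (0 : ℝ) ≤ 1 - p := by linarith [p.2.2]
  set C : Finset (Finset (Fin n) × Finset (Fin n)) :=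
    Finset.univ.filter fun c => c ≠ (∅, ∅) ∧ c ≠ (Finset.univ, Finset.univ) with hC
  have hsub : {O : Set (Sym2 (Fin d → Fin n)) | ¬ NoCut O x y i j} ⊆ ⋃ c ∈ C, {O | ∀ a b,
      ((a ∈ c.1 ∧ b ∉ c.2) ∨ (a ∉ c.1 ∧ b ∈ c.2)) →
      s(upd x i j a b, y) ∉ (hamming n d).edgeSet ∪ O} := by
    intro O hO
    simp only [Set.mem_ofPred_eq, NoCut] at hO
    push Not at hO
    obtain ⟨c, h1, h2, h3⟩ := hO
    simp only [Set.mem_iUnion]
    exact ⟨c, by rw [hC, Finset.mem_filter]; exact ⟨Finset.mem_univ _, h1, h2⟩, h3⟩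
  refine (measureReal_mono hsub (measure_ne_top _ _)).trans ?_
  refine (measureReal_biUnion_finset_le _ _).trans ?_
  have hterm : ∀ c : Finset (Fin n) × Finset (Fin n),
      (1 - (p : ℝ)) ^ (c.1.card * (n - c.2.card) + (n - c.1.card) * c.2.card) ≤
      ρ ^ (min (c.1.card + c.2.card) ((n - c.1.card) + (n - c.2.card))) := by
    intro c
    have hc1 : c.1.card ≤ n := by simpa using Finset.card_le_univ c.1
    have hc2 : c.2.card ≤ n := by simpa using Finset.card_le_univ c.2
    have h1 : (1 - (p : ℝ)) ≤ Real.exp (-(p : ℝ)) := by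
      have := Real.add_one_le_exp (-(p : ℝ))
      linarith
    have h2 := cut_arith n c.1.card c.2.card hc1 hc2
    set k := c.1.card * (n - c.2.card) + (n - c.1.card) * c.2.card
    set m := min (c.1.card + c.2.card) ((n - c.1.card) + (n - c.2.card))
    calc (1 - (p : ℝ)) ^ k ≤ (Real.exp (-(p : ℝ))) ^ k := pow_le_pow_left₀ hp0 h1 k
      _ = Real.exp (-(p : ℝ) * k) := by rw [← Real.exp_nat_mul]; ring_nf
      _ ≤ Real.exp ((m : ℝ) * (-(p : ℝ) * n / 2)) := by
        apply Real.exp_le_exp.2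
        have h2' : (n : ℝ) * m ≤ 2 * k := by exact_mod_cast h2
        have hp : 0 ≤ (p : ℝ) := p.2.1
        nlinarith [mul_le_mul_of_nonneg_left h2' hp]
      _ = ρ ^ m := by rw [hρ, ← Real.exp_nat_mul]
  have hmin : ∀ s t : ℕ, ρ ^ (min s t) ≤ ρ ^ s + ρ ^ t := by
    intro s t
    rcases le_total s t with h | h
    · rw [min_eq_left h]; linarith [pow_pos hρ0 t]
    · rw [min_eq_right h]; linarith [pow_pos hρ0 s]
  calc ∑ c ∈ C, (setBernoulli ((hamming n d)ᶜ.edgeSet) p).real {O | ∀ a b,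
      ((a ∈ c.1 ∧ b ∉ c.2) ∨ (a ∉ c.1 ∧ b ∈ c.2)) →
      s(upd x i j a b, y) ∉ (hamming n d).edgeSet ∪ O}
      ≤ ∑ c ∈ C, (ρ ^ (c.1.card + c.2.card) + ρ ^ ((n - c.1.card) + (n - c.2.card))) := by
        apply Finset.sum_le_sum
        intro c _
        exact (prob_cut_le p x y hxy i j hij c).trans ((hterm c).trans (hmin _ _))
    _ = ∑ c ∈ C, ρ ^ (c.1.card + c.2.card)
        + ∑ c ∈ C, ρ ^ ((n - c.1.card) + (n - c.2.card)) := Finset.sum_add_distrib
    _ ≤ ((1 + ρ) ^ (2 * n) - 1) + ((1 + ρ) ^ (2 * n) - 1) := by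
        apply add_le_add
        · have h1 : ∑ c ∈ C, ρ ^ (c.1.card + c.2.card) ≤
              ∑ c ∈ Finset.univ.erase ((∅, ∅) : Finset (Fin n) × Finset (Fin n)),
                ρ ^ (c.1.card + c.2.card) := by
            apply Finset.sum_le_sum_of_subset_of_nonneg
            · intro c hc
              rw [hC, Finset.mem_filter] at hc
              exact Finset.mem_erase.2 ⟨hc.2.1, Finset.mem_univ _⟩
            · intros; positivity
          have h2 := Finset.sum_erase_add Finset.univ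
            (fun c : Finset (Fin n) × Finset (Fin n) => ρ ^ (c.1.card + c.2.card))
            (Finset.mem_univ ((∅, ∅) : Finset (Fin n) × Finset (Fin n)))
          rw [sum_pow_card] at h2
          simp only [Finset.card_empty, add_zero, pow_zero] at h2
          linarith
        · have h1 : ∑ c ∈ C, ρ ^ ((n - c.1.card) + (n - c.2.card)) ≤
              ∑ c ∈ Finset.univ.erase
                ((Finset.univ, Finset.univ) : Finset (Fin n) × Finset (Fin n)),
                ρ ^ ((n - c.1.card) + (n - c.2.card)) := by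
            apply Finset.sum_le_sum_of_subset_of_nonneg
            · intro c hc
              rw [hC, Finset.mem_filter] at hc
              exact Finset.mem_erase.2 ⟨hc.2.2, Finset.mem_univ _⟩
            · intros; positivity
          have h2 := Finset.sum_erase_add Finset.univ
            (fun c : Finset (Fin n) × Finset (Fin n) => ρ ^ ((n - c.1.card) + (n - c.2.card)))
            (Finset.mem_univ ((Finset.univ, Finset.univ) : Finset (Fin n) × Finset (Fin n)))
          rw [sum_pow_card_compl] at h2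
          simp only [Finset.card_univ, Fintype.card_fin, Nat.sub_self, add_zero, pow_zero] at h2
          linarith
    _ = 2 * ((1 + ρ) ^ (2 * n) - 1) := by ring

theorem prob_not_saturated (p : I) :
    (setBernoulli ((hamming n d)ᶜ.edgeSet) p).real {O | ¬ Saturated n d O} ≤
    (n : ℝ) ^ (2 * d) * (d : ℝ) ^ 2 *
      (2 * ((1 + Real.exp (-(p : ℝ) * n / 2)) ^ (2 * n) - 1)) := by
  classical
  set μ := setBernoulli ((hamming n d)ᶜ.edgeSet) p with hμ
  set β := 2 * ((1 + Real.exp (-(p : ℝ) * n / 2)) ^ (2 * n) - 1) with hβ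
  have hβ0 : 0 ≤ β := by
    have : (1 : ℝ) ≤ (1 + Real.exp (-(p : ℝ) * n / 2)) ^ (2 * n) :=
      one_le_pow₀ (by linarith [Real.exp_pos (-(p : ℝ) * n / 2)])
    rw [hβ]; linarith
  let T := ((Fin d → Fin n) × (Fin d → Fin n)) × (Fin d × Fin d)
  let B : Finset T := Finset.univ.filter fun t => 3 ≤ hammingDist t.1.1 t.1.2 ∧ t.2.1 ≠ t.2.2
  have h1 : μ.real {O | ¬ Saturated n d O} ≤ μ.real (⋃ t ∈ B, {O | ¬ NoCut O t.1.1 t.1.2 t.2.1 t.2.2}) := by
    rw [measureReal_def, measureReal_def, hμ, setBernoulli_apply_eq_apply_subsets]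
    apply ENNReal.toReal_mono (measure_ne_top _ _)
    apply measure_mono
    rintro O ⟨hO1, hO2⟩
    simp only [Set.mem_ofPred_eq] at hO1
    by_contra hcon
    apply hO1
    apply saturated_of_noCut hO2
    intro x y hxy i j hij _ _
    by_contra hN
    apply hcon
    simp only [Set.mem_iUnion]
    exact ⟨((x, y), (i, j)), by simp only [B, Finset.mem_filter]; exact ⟨Finset.mem_univ _, hxy, hij⟩, hN⟩
  refine h1.trans ((measureReal_biUnion_finset_le _ _).trans ?_)
  calc ∑ t ∈ B, μ.real {O | ¬ NoCut O t.1.1 t.1.2 t.2.1 t.2.2} ≤ ∑ t ∈ B, β := by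
        apply Finset.sum_le_sum
        intro t ht
        simp only [B, Finset.mem_filter] at ht
        exact prob_noCut p _ _ ht.2.1 _ _ ht.2.2
    _ = B.card * β := by rw [Finset.sum_const, nsmul_eq_mul]
    _ ≤ ((n : ℝ) ^ (2 * d) * (d : ℝ) ^ 2) * β := by
        apply mul_le_mul_of_nonneg_right _ hβ0
        have : B.card ≤ Fintype.card T := Finset.card_le_univ B
        have hT : Fintype.card T = n ^ (2 * d) * d ^ 2 := by
          simp only [T, Fintype.card_prod, Fintype.card_fun, Fintype.card_fin]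
          ring
        rw [hT] at this
        exact_mod_cast this

end Pool.Agent.H.MP_82e03f_pr
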